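import Pool.Agent.Helper47_BS.Stmts

/-! # BS squad (helper3): shared lemmas on codes, mirror images and shifts -/

set_option autoImplicit false

namespace Pool.Agent.BS.H3

open Function Filter MeasureTheory Topology

/-! ### the mirror map on codes -/

theorem swap_swap (k : Kd) : k.swap.swap = k := by cases k <;> rfl

theorem Mi_Mi (X : Cod) : Mi (Mi X) = X := by
  funext k g
  simp only [Mi, sig_sig, swap_swap]

theorem Mi_comp_Mi : Mi ∘ Mi = id := by
  funext X
  exact Mi_Mi X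

theorem continuous_Mi : Continuous Mi :=
  continuous_pi fun _ => continuous_pi fun _ => continuous_bit _ _

theorem measurable_Mi : Measurable Mi := continuous_Mi.measurable

theorem map_Mi_Mi (μ : Measure Cod) : Measure.map Mi (Measure.map Mi μ) = μ := by
  rw [Measure.map_map measurable_Mi measurable_Mi, Mi_comp_Mi, Measure.map_id]

theorem prob_map_Mi {μ : Measure Cod} (h : IsProbabilityMeasure μ) :
    IsProbabilityMeasure (Measure.map Mi μ) :=
  Measure.isProbabilityMeasure_map measurable_Mi.aemeasurable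

theorem th0_Mi (K : ℕ) (X : Cod) : th0 K (Mi X) = th0 K X := by
  unfold th0 Mi
  simp only [map_one, Kd.swap]

theorem measurable_th0 (K : ℕ) : Measurable (th0 K) := by
  unfold th0
  refine Finset.measurable_sum _ fun z _ => ?_
  have h : Measurable (fun b : Bool => if b then (z : ℝ) else 0) := measurable_of_countable _
  exact h.comp (measurable_bit (.th z) 1)

theorem abs_th0_le (K : ℕ) (X : Cod) :
    |th0 K X| ≤ ∑ z ∈ Finset.Icc (-(K : ℤ)) K, |(z : ℝ)| := by
  unfold th0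
  refine (Finset.abs_sum_le_sum_abs _ _).trans (Finset.sum_le_sum fun z _ => ?_)
  split_ifs
  · exact le_refl _
  · rw [abs_zero]; exact abs_nonneg _

theorem exists_abs_th0_le (K : ℕ) : ∃ C : ℝ, ∀ X, |th0 K X| ≤ C :=
  ⟨_, abs_th0_le K⟩

/-! ### mirror images of environments -/

section
variable {D V : Type} {T : TMap D V} {θ : D → ℤ} {E : Env D V} {X : Cod} {Δ K : ℕ}

theorem mir_mir (E : Env D V) : E.mir.mir = E := rfl

theorem isRep_mir (hM : MirPlanarStmt) (hC : CodeStmt) (h : IsRep Δ K T θ E X) :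
    IsRep Δ K T.mirror θ E.mir (Mi X) where
  planar := hM D V T h.planar
  deg := h.deg
  flow := h.flow.mirror
  eq := by rw [h.eq]; exact (hC D V T θ E).1

theorem mirror_NoR (P : Set D) (c : V → Bool) (s : D) : T.mirror.NoR P c s ↔ T.NoR P c s := by
  unfold TMap.NoR
  simp only [TMap.mirror_st, TMap.mirror_rt]
  constructor
  · intro h e he hj i
    have h2 := h e he (fun j => hj (-j)) (-i)
    rwa [neg_neg] at h2
  · intro h e he hj i
    refine h e he (fun j => ?_) (-i)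
    have h2 := hj (-j)
    rwa [neg_neg] at h2

theorem mirror_NoL (P : Set D) (c : V → Bool) (s : D) : T.mirror.NoL P c s ↔ T.NoL P c s := by
  unfold TMap.NoL
  simp only [TMap.mirror_st, TMap.mirror_lf]
  constructor
  · intro h e he hj i
    have h2 := h e he (fun j => hj (-j)) (-i)
    rwa [neg_neg] at h2
  · intro h e he hj i
    refine h e he (fun j => ?_) (-i)
    have h2 := hj (-j)
    rwa [neg_neg] at h2

/-- every dart is `g` applied to the root -/
theorem exists_act (T : TMap D V) (r d : D) : ∃ g : Gam, T.act g r = d := T.act_conn r d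

end

/-! ### iterated shifts -/

/-- the code seen from time `i` -/
def Shz (X : Cod) : ℤ → Cod
  | Int.ofNat n => Sh^[n] X
  | Int.negSucc n => Sb^[n + 1] X

theorem Shz_natCast (X : Cod) (n : ℕ) : Shz X n = Sh^[n] X := rfl

theorem Shz_neg_natCast (X : Cod) (n : ℕ) : Shz X (-(n : ℤ)) = Sb^[n] X := by
  cases n with
  | zero => rfl
  | succ n => rfl

theorem Shz_zero (X : Cod) : Shz X 0 = X := rfl
theorem Shz_one (X : Cod) : Shz X 1 = Sh X := rfl
theorem Shz_neg_one (X : Cod) : Shz X (-1) = Sb X := rfl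

section
variable {D V : Type} {T : TMap D V} {θ : D → ℤ} {E : Env D V} {X : Cod} {Δ K : ℕ}

theorem Shz_enc (hA : AtStmt) (hE : T.Good E) (i : ℤ) :
    Shz (T.enc θ E) i = T.enc θ (T.atE E i) := by
  obtain ⟨_, _, _, _, _, _, h1, h2⟩ := hA D V T θ E hE
  obtain ⟨n, rfl | rfl⟩ := i.eq_nat_or_neg
  · exact h1 n
  · rw [Shz_neg_natCast]; exact h2 n

theorem isRep_at (hA : AtStmt) (h : IsRep Δ K T θ E X) (hE : T.Good E) (i : ℤ) :
    IsRep Δ K T θ (T.atE E i) (Shz X i) where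
  planar := h.planar
  deg := h.deg
  flow := h.flow
  eq := by rw [h.eq]; exact Shz_enc hA hE i

theorem good_at (hA : AtStmt) (hE : T.Good E) (θ : D → ℤ) (i : ℤ) : T.Good (T.atE E i) :=
  (hA D V T θ E hE).2.2.1 i

theorem at_at (hA : AtStmt) (hE : T.Good E) (θ : D → ℤ) (i j : ℤ) :
    T.atE (T.atE E i) j = T.atE E (i + j) :=
  (hA D V T θ E hE).2.1 i j

theorem at_zero (hA : AtStmt) (hE : T.Good E) (θ : D → ℤ) : T.atE E 0 = E :=
  (hA D V T θ E hE).1

theorem st_at (hE : T.Good E) (i j : ℤ) :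
    T.st E.c (T.atE E i).r j = T.st E.c E.r (i + j) :=
  hE.state.st_st i j

theorem mem_at_P {i : ℤ} {e : D} (he : ∀ j : ℤ, T.st E.c E.r j ≠ e) :
    e ∈ (T.atE E i).P ↔ e ∈ E.P := by
  unfold TMap.atE TMap.strand
  simp only [Set.mem_union, Set.mem_sdiff, Set.mem_range, Set.mem_ofPred_eq]
  constructor
  · rintro (⟨h, _⟩ | ⟨j, _, h⟩)
    · exact h
    · exact absurd h (he j)
  · intro h
    exact Or.inl ⟨h, fun ⟨j, hj⟩ => he j hj⟩

theorem mem_at_F {i : ℤ} {e : D} (he : ∀ j : ℤ, T.st E.c E.r j ≠ e) :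
    e ∈ (T.atE E i).F ↔ e ∈ E.F := by
  unfold TMap.atE TMap.strand
  simp only [Set.mem_union, Set.mem_sdiff, Set.mem_range, Set.mem_ofPred_eq]
  constructor
  · rintro (⟨h, _⟩ | ⟨j, _, h⟩)
    · exact h
    · exact absurd h (he j)
  · intro h
    exact Or.inl ⟨h, fun ⟨j, hj⟩ => he j hj⟩

theorem off_at (hE : T.Good E) {i : ℤ} {e : D} :
    (∀ j : ℤ, T.st E.c (T.atE E i).r j ≠ e) ↔ ∀ j : ℤ, T.st E.c E.r j ≠ e := by
  constructor
  · intro h j
    have h2 := h (j - i)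
    rw [st_at hE] at h2
    rwa [add_sub_cancel] at h2
  · intro h j
    rw [st_at hE]
    exact h _

end

/-! ### the measure -/

/-- the situation of part H -/
structure Ctx (Δ K : ℕ) (μ : Measure Cod) : Prop where
  prob : IsProbabilityMeasure μ
  h : Half Δ K μ
  h' : Half Δ K (Measure.map Mi μ)

namespace Ctx

variable {Δ K : ℕ} {μ : Measure Cod}

theorem mir (C : Ctx Δ K μ) : Ctx Δ K (Measure.map Mi μ) :=
  ⟨prob_map_Mi C.prob, C.h', by rw [map_Mi_Mi]; exact C.h⟩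

theorem mpMi (μ : Measure Cod) : MeasurePreserving Mi μ (Measure.map Mi μ) :=
  ⟨measurable_Mi, rfl⟩

theorem mpMi' (μ : Measure Cod) : MeasurePreserving Mi (Measure.map Mi μ) μ :=
  ⟨measurable_Mi, map_Mi_Mi μ⟩

theorem mpSh (C : Ctx Δ K μ) : MeasurePreserving Sh μ μ := C.h.shift

theorem mpSb (C : Ctx Δ K μ) : MeasurePreserving Sb μ μ :=
  (mpMi' μ).comp (C.h'.shift.comp (mpMi μ))

theorem mpShz (C : Ctx Δ K μ) (i : ℤ) : MeasurePreserving (fun X => Shz X i) μ μ := by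
  obtain ⟨n, rfl | rfl⟩ := i.eq_nat_or_neg
  · exact C.mpSh.iterate n
  · have h := C.mpSb.iterate n
    have e : (fun X => Shz X (-(n : ℤ))) = Sb^[n] := by
      funext X
      exact Shz_neg_natCast X n
    rw [e]
    exact h

theorem ae_Mi {p : Cod → Prop} (h : ∀ᵐ X ∂(Measure.map Mi μ), p X) : ∀ᵐ X ∂μ, p (Mi X) :=
  (mpMi μ).quasiMeasurePreserving.ae h

theorem ae_of_Mi {p : Cod → Prop} (h : ∀ᵐ X ∂μ, p (Mi X)) : ∀ᵐ X ∂(Measure.map Mi μ), p X := by
  have h2 : ∀ᵐ X ∂(Measure.map Mi μ), p (Mi (Mi X)) :=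
    ae_Mi (μ := Measure.map Mi μ) (p := fun X => p (Mi X)) (by rw [map_Mi_Mi]; exact h)
  filter_upwards [h2] with X hX
  rwa [Mi_Mi] at hX

theorem ae_Shz (C : Ctx Δ K μ) {p : Cod → Prop} (h : ∀ᵐ X ∂μ, p X) :
    ∀ᵐ X ∂μ, ∀ i : ℤ, p (Shz X i) := by
  rw [ae_all_iff]
  intro i
  exact (C.mpShz i).quasiMeasurePreserving.ae h

/-- almost every code has a good representation -/
theorem ae_rep (C : Ctx Δ K μ) : ∀ᵐ X ∂μ, ∃ (D V : Type) (T : TMap D V) (θ : D → ℤ) (E : Env D V),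
    IsRep Δ K T θ E X ∧ T.Good E := by
  filter_upwards [C.h.valid, C.h.good] with X h1 h2
  obtain ⟨D, V, T, θ, E, h⟩ := h1
  exact ⟨D, V, T, θ, E, h, h2 D V T θ E h⟩

theorem ae_Sb_Sh (C : Ctx Δ K μ) (hA : AtStmt) : ∀ᵐ X ∂μ, Sb (Sh X) = X := by
  filter_upwards [C.ae_rep] with X h
  obtain ⟨D, V, T, θ, E, h, hE⟩ := h
  have h1 := isRep_at hA h hE 1
  have hE1 := good_at hA hE θ 1
  have h2 := (isRep_at hA h1 hE1 (-1)).eq
  rw [at_at hA hE θ, Shz_one, Shz_neg_one] at h2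
  rw [h2, h.eq, show (1 : ℤ) + -1 = 0 by norm_num, at_zero hA hE θ]

theorem ae_Sh_Sb (C : Ctx Δ K μ) (hA : AtStmt) : ∀ᵐ X ∂μ, Sh (Sb X) = X := by
  filter_upwards [C.ae_rep] with X h
  obtain ⟨D, V, T, θ, E, h, hE⟩ := h
  have h1 := isRep_at hA h hE (-1)
  have hE1 := good_at hA hE θ (-1)
  have h2 := (isRep_at hA h1 hE1 1).eq
  rw [at_at hA hE θ, Shz_one, Shz_neg_one] at h2
  rw [h2, h.eq, show (-1 : ℤ) + 1 = 0 by norm_num, at_zero hA hE θ]

/-- an a.e. `Sh`-invariant property is a.e. invariant under all shifts -/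
theorem ae_inv (C : Ctx Δ K μ) (hA : AtStmt) {p : Cod → Prop} (h : ∀ᵐ X ∂μ, p X ↔ p (Sh X)) :
    ∀ᵐ X ∂μ, ∀ i : ℤ, p (Shz X i) ↔ p X := by
  filter_upwards [C.ae_Shz h, C.ae_Shz C.ae_rep] with X h1 h2
  have key : ∀ i : ℤ, p (Shz X i) ↔ p (Shz X (i + 1)) := by
    intro i
    obtain ⟨D, V, T, θ, E, h3, hE⟩ := h2 0
    have h5 := isRep_at hA h3 hE
    rw [Shz_zero] at h5
    have e : Sh (Shz X i) = Shz X (i + 1) := by
      have h4 := (isRep_at hA (h5 i) (good_at hA hE θ i) 1).eq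
      rw [Shz_one] at h4
      rw [h4, at_at hA hE θ, ← (h5 (i + 1)).eq]
    rw [← e]
    exact h1 i
  have kn : ∀ n : ℕ, p (Shz X n) ↔ p X := by
    intro n
    induction n with
    | zero => exact Iff.rfl
    | succ n ih =>
      rw [← ih]
      have := key n
      rw [this]
      push_cast
      exact Iff.rfl
  have km : ∀ n : ℕ, p (Shz X (-(n : ℤ))) ↔ p X := by
    intro n
    induction n with
    | zero => exact Iff.rfl
    | succ n ih =>
      rw [← ih]
      have := key (-((n + 1 : ℕ) : ℤ))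
      rw [this]
      have e : -((n + 1 : ℕ) : ℤ) + 1 = -(n : ℤ) := by push_cast; ring
      rw [e]
  intro i
  obtain ⟨n, rfl | rfl⟩ := i.eq_nat_or_neg
  · exact kn n
  · exact km n

theorem delta_pos (C : Ctx Δ K μ) : 0 < Δ := by
  have := C.prob
  obtain ⟨X, D, V, T, θ, E, h, _⟩ := C.ae_rep.exists
  have h1 := h.deg (T.lf E.r)
  have h2 := (T.star_ne (T.lf E.r)).card_pos
  omega

end Ctx

end Pool.Agent.BS.H3
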