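import Pool.Agent.Helper3_BS.Rec

/-! # BS module CORE -/

set_option autoImplicit false

namespace Pool.Agent.BS.H3

open Function Filter MeasureTheory Topology

variable {Δ K : ℕ} {μ : Measure Cod}

theorem cesaro_shift (f : ℕ → ℝ) (a : ℝ) (t : ℕ)
    (h : Tendsto (fun n : ℕ => (∑ k ∈ Finset.range n, f k) / n) atTop (𝓝 a)) :
    Tendsto (fun n : ℕ => (∑ k ∈ Finset.range n, f (t + k)) / n) atTop (𝓝 a) := by
  have h1 : Tendsto (fun n : ℕ => (∑ k ∈ Finset.range (t + n), f k) / ((t + n : ℕ) : ℝ)) atTop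
      (𝓝 a) := h.comp (tendsto_atTop_mono (fun n => Nat.le_add_left n t) tendsto_id)
  have h2 : Tendsto (fun n : ℕ => (((t : ℝ) + n) / n)) atTop (𝓝 1) := by
    have h3 : Tendsto (fun n : ℕ => (t : ℝ) / n + 1) atTop (𝓝 (0 + 1)) :=
      (tendsto_const_div_atTop_nhds_zero_nat (t : ℝ)).add_const 1
    rw [zero_add] at h3
    refine h3.congr' ?_
    filter_upwards [eventually_gt_atTop 0] with n hn
    have : (n : ℝ) ≠ 0 := by positivity
    field_simp
  have h4 : Tendsto (fun n : ℕ => (∑ k ∈ Finset.range t, f k) / (n : ℝ)) atTop (𝓝 0) :=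
    tendsto_const_div_atTop_nhds_zero_nat _
  have h5 := (h1.mul h2).sub h4
  rw [mul_one, sub_zero] at h5
  refine h5.congr' ?_
  filter_upwards [eventually_gt_atTop 0] with n hn
  have h6 : (n : ℝ) ≠ 0 := by positivity
  have h7 : (t : ℝ) + n ≠ 0 := by positivity
  rw [Finset.sum_range_add]
  push_cast
  field_simp
  ring

theorem FAvg_at {D V : Type} {T : TMap D V} {θ : D → ℤ} {E : Env D V} (hE : T.Good E) {a : ℝ}
    (h : T.FAvg θ E.c E.r a) (t : ℕ) : T.FAvg θ (T.atE E t).c (T.atE E t).r a := by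
  unfold TMap.FAvg at *
  have h1 := cesaro_shift (fun k => (θ (T.st E.c E.r (k : ℤ)) : ℝ)) a t h
  have e : ∀ k : ℕ, T.st (T.atE E t).c (T.atE E t).r (k : ℤ) = T.st E.c E.r ((t + k : ℕ) : ℤ) := by
    intro k
    have := st_at hE (t : ℤ) (k : ℤ)
    rw [Nat.cast_add]
    exact this
  simp only [e]
  exact h1

theorem state_flipE {D V : Type} {T : TMap D V} {E : Env D V} (hE : T.State E.c E.r)
    (hP : E.r ∈ E.P) (S : Set V) : T.State (T.flipE S E).c (T.flipE S E).r := by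
  have h1 : T.lf E.r ∈ T.vP E := ⟨E.r, hP, Or.inl rfl⟩
  have h2 : T.rt E.r ∈ T.vP E := ⟨E.r, hP, Or.inr rfl⟩
  unfold TMap.flipE TMap.State
  simp only [h1, h2, not_true, and_false, if_false]
  exact hE

theorem mem_P_root {D V : Type} {T : TMap D V} {E : Env D V} (hE : T.Good E) : E.r ∈ E.P :=
  (hE.memP 0).2 le_rfl

theorem mem_F_root {D V : Type} {T : TMap D V} {E : Env D V} (hE : T.Good E) : E.r ∈ E.F :=
  (hE.memF 0).2 le_rfl

/-- words for a finite set of vertices -/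
theorem exists_words {D V : Type} (T : TMap D V) (r : D) (S : Finset V) :
    ∃ S' : Finset Gam, {v | ∃ g ∈ S', T.lf (T.act g r) = v} = (S : Set V) := by
  classical
  have h : ∀ v : V, ∃ g : Gam, T.lf (T.act g r) = v := by
    intro v
    obtain ⟨d, hd⟩ := T.star_ne v
    obtain ⟨g, hg⟩ := T.act_conn r d
    exact ⟨g, by rw [hg]; exact (T.mem_star v d).1 hd⟩
  choose g hg using h
  refine ⟨S.image g, ?_⟩
  ext v
  simp only [Finset.mem_image, Finset.mem_coe]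
  constructor
  · rintro ⟨_, ⟨w, hw, rfl⟩, h2⟩
    rw [hg] at h2
    exact h2 ▸ hw
  · intro hv
    exact ⟨g v, ⟨v, hv, rfl⟩, hg v⟩

/-- Module CORE. -/
theorem core (hG : ErgStmt) (hCut : CutStmt) (hDet : DetStmt) (hFT : FlipTypStmt)
    (hR : TypRepStmt) (hA : AtStmt) (hC : CodeStmt) (hM : MirPlanarStmt) : CoreStmt := by
  intro Δ K μ h1 h2 h3 W hW inv hpos hno
  have C : Ctx Δ K μ := ⟨h1, h2, h3⟩
  have := C.prob
  have herg := hG Cod _ μ C.prob Sh Sb C.mpSh C.mpSb (C.ae_Sb_Sh hA) (C.ae_Sh_Sb hA) (th0 K)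
    (measurable_th0 K) (exists_abs_th0_le K)
  have hP := herg.2 W hW inv hpos
  have havg := herg.1
  have hft1 := hFT Δ K μ h1 h2 h3
  have hft2 := Ctx.ae_Mi (hFT Δ K (Measure.map Mi μ) C.mir.prob C.mir.h C.mir.h')
  set Q : Set Cod := {X | X ∈ W ∧ ∃ a : ℝ, 0 < a ∧ ∃ (D V : Type) (T : TMap D V) (θ : D → ℤ)
    (E : Env D V), IsRep Δ K T θ E X ∧ T.Good E ∧ T.FAvg θ E.c E.r a ∧
      ∀ j i : ℤ, j ≤ 0 → 0 < i → T.rt (T.st E.c E.r j) ≠ T.rt (T.st E.c E.r i)} with hQ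
  -- step 1: almost no code is in `Q`
  have s1 : ∀ᵐ X ∂μ, X ∉ Q := by
    filter_upwards [hno, havg, hft1, hft2] with X g1 g2 g3 g4
    rintro ⟨hXW, a, ha, D, V, T, θ, E, h, hE, hF, hcut⟩
    obtain ⟨n1, n2, n3⟩ := g1 hXW D V T θ E h
    obtain ⟨a', ha1, ha2⟩ := g2
    have ea : a' = a := tendsto_nhds_unique ha1 ((FAvg_iff hA hC h hE a).1 hF)
    subst ea
    have hB : T.BAvg θ E.c E.r a' := (BAvg_iff hA hC h hE a').2 ha2
    refine hDet D V T Δ K θ E a' ?_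
    refine ⟨h.planar, h.deg, h.flow, hE, ha, hF, hB, n1, n3, n2, hcut, ?_, ?_⟩
    · have hr : IsRep Δ K T θ (T.flipE Set.univ E) (FlT Δ X) := by
        refine ⟨h.planar, h.deg, h.flow, ?_⟩
        rw [h.eq]
        exact (hC D V T θ E).2.2.2.2.1 Δ h.deg
      exact (cTyp_iff hR hr (state_flipE hE.state (mem_P_root hE) _)).1 g3.1
    · intro S
      obtain ⟨S', hS'⟩ := exists_words T.mirror E.mir.r S
      have hm := isRep_mir hM hC h
      have hEm : T.mirror.Good E.mir := (hA D V T θ E hE).2.2.2.1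
      have hr : IsRep Δ K T.mirror θ (T.mirror.flipE (S : Set V) E.mir) (FlP Δ S' (Mi X)) := by
        refine ⟨hm.planar, hm.deg, hm.flow, ?_⟩
        rw [hm.eq, ← hS']
        exact (hC D V T.mirror θ E.mir).2.2.2.1 Δ S' hm.deg
      exact (cTyp_iff hR hr (state_flipE hEm.state (mem_P_root hEm) _)).1 (g4.2 S')
  -- step 2: almost no code has a shift in `Q`
  have s2 := C.ae_Shz s1
  -- step 3: almost no code in `W` has a positive average
  have s3 : ∀ᵐ X ∂μ, X ∉ {x | x ∈ W ∧ ∃ a : ℝ, 0 < a ∧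
      Tendsto (fun n : ℕ => (∑ k ∈ Finset.range n, th0 K (Sh^[k] x)) / n) atTop (𝓝 a)} := by
    filter_upwards [s2, C.ae_rep, havg, C.ae_inv hA (p := fun X => X ∈ W) inv] with X g1 g2 g3 g4
    rintro ⟨hXW, a, ha, hlim⟩
    obtain ⟨D, V, T, θ, E, h, hE⟩ := g2
    obtain ⟨a', ha1, ha2⟩ := g3
    have ea : a' = a := tendsto_nhds_unique ha1 hlim
    subst ea
    have hF : T.FAvg θ E.c E.r a' := (FAvg_iff hA hC h hE a').2 hlim
    have hB : T.BAvg θ E.c E.r a' := (BAvg_iff hA hC h hE a').2 ha2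
    obtain ⟨t, ht⟩ := hCut D V T Δ K θ E.c E.r a' h.planar h.deg h.flow hE.state hE.inj ha hF hB
    refine g1 t ⟨(g4 t).2 hXW, a', ha, D, V, T, θ, T.atE E t, isRep_at hA h hE t,
      good_at hA hE θ t, FAvg_at hE hF t, ?_⟩
    intro j i hj hi
    have e1 : T.st (T.atE E t).c (T.atE E t).r j = T.st E.c E.r (t + j) := st_at hE t j
    have e2 : T.st (T.atE E t).c (T.atE E t).r i = T.st E.c E.r (t + i) := st_at hE t i
    rw [e1, e2]
    exact ht _ _ (by omega) (by omega)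
  have h0 : μ {x | x ∈ W ∧ ∃ a : ℝ, 0 < a ∧
      Tendsto (fun n : ℕ => (∑ k ∈ Finset.range n, th0 K (Sh^[k] x)) / n) atTop (𝓝 a)} = 0 :=
    measure_eq_zero_iff_ae_notMem.2 s3
  exact absurd h0 hP.ne'

end Pool.Agent.BS.H3
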