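import Pool.Agent.Helper3_BS.Rec

/-! # BS module FLIPTYP -/

set_option autoImplicit false

namespace Pool.Agent.BS.H3

open Function Filter MeasureTheory Topology

variable {Δ K : ℕ} {μ : Measure Cod}

theorem sameV_self {Δ : ℕ} {X : Cod} (h : X .eq 1 = true) (g : Gam) : sameV Δ X g g = true := by
  unfold sameV
  rw [List.any_eq_true]
  refine ⟨0, ?_, ?_⟩
  · simp
  · simp [h]

/-- pointwise convergence of the finite flips to the total flip -/
theorem tendsto_FlP {Δ : ℕ} {X : Cod} (h : X .eq 1 = true) :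
    Tendsto (fun S : Finset Gam => FlP Δ S X) atTop (𝓝 (FlT Δ X)) := by
  rw [tendsto_pi_nhds]
  intro k
  rw [tendsto_pi_nhds]
  intro g
  refine tendsto_const_nhds.congr' ?_
  filter_upwards [eventually_ge_atTop ({g} : Finset Gam)] with S hS
  have hg : g ∈ S := hS (Finset.mem_singleton_self g)
  have h1 : ∃ g' ∈ S, sameV Δ X g' g = true := ⟨g, hg, sameV_self h g⟩
  cases k with
  | col =>
    simp only [FlT, FlP, h1, true_and]
  | past => rfl
  | fut => rfl
  | eq => rfl
  | beta m => rfl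
  | th z => rfl

theorem eq_one_of_rep {D V : Type} {T : TMap D V} {θ : D → ℤ} {E : Env D V} {X : Cod}
    (h : IsRep Δ K T θ E X) : X .eq 1 = true := by
  rw [h.eq]
  simp only [TMap.enc, T.act_one_apply, decide_true]

theorem map_FlT (hCont : ContStmt) (C : Ctx Δ K μ) :
    Measure.map (fun X => PrP (FlT Δ X)) μ = Measure.map PrP μ := by
  have := C.prob
  obtain ⟨_, _, _, cP, cFl, cFlT, _⟩ := hCont
  have c1 : Continuous (fun X => PrP (FlT Δ X)) := cP.comp (cFlT Δ)
  have c2 : ∀ S, Continuous (fun X => PrP (FlP Δ S X)) := fun S => cP.comp (cFl Δ S)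
  have p1 : IsProbabilityMeasure (Measure.map (fun X => PrP (FlT Δ X)) μ) :=
    Measure.isProbabilityMeasure_map c1.measurable.aemeasurable
  have p2 : IsProbabilityMeasure (Measure.map PrP μ) :=
    Measure.isProbabilityMeasure_map cP.measurable.aemeasurable
  refine ext_of_forall_integral_eq_of_IsFiniteMeasure fun f => ?_
  have e1 : ∀ S : Finset Gam, ∫ X, f (PrP (FlP Δ S X)) ∂μ = ∫ x, f x ∂(Measure.map PrP μ) := by
    intro S
    rw [← C.h.flip S, integral_map (c2 S).measurable.aemeasurable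
      f.continuous.aestronglyMeasurable]
  have lim : Tendsto (fun S : Finset Gam => ∫ X, f (PrP (FlP Δ S X)) ∂μ) atTop
      (𝓝 (∫ X, f (PrP (FlT Δ X)) ∂μ)) := by
    refine tendsto_integral_filter_of_dominated_convergence (fun _ => ‖f‖) ?_ ?_
      (integrable_const _) ?_
    · exact Eventually.of_forall fun S => (f.continuous.comp (c2 S)).aestronglyMeasurable
    · exact Eventually.of_forall fun S => Eventually.of_forall fun X => f.norm_coe_le_norm _
    · filter_upwards [C.ae_rep] with X hX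
      obtain ⟨D, V, T, θ, E, h, _⟩ := hX
      exact ((f.continuous.comp cP).tendsto _).comp (tendsto_FlP (eq_one_of_rep h))
  simp only [e1] at lim
  rw [integral_map c1.measurable.aemeasurable f.continuous.aestronglyMeasurable]
  exact (tendsto_nhds_unique lim tendsto_const_nhds)

theorem ae_cTyp_of_map {F : Cod → Cod} (hF : Measurable F) (hP : Measurable PrP)
    (hT : TypMeasStmt) (h : Measure.map (fun X => PrP (F X)) μ = Measure.map PrP μ)
    (h2 : ∀ᵐ X ∂μ, cTyp K X) : ∀ᵐ X ∂μ, cTyp K (F X) := by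
  have hm : MeasurableSet {X | cTyp K X} := hT.1 K
  have h3 : ∀ᵐ X ∂μ, cTyp K (PrP X) := by
    filter_upwards [h2] with X hX
    exact (hT.2.2.2.2 K X).2 hX
  have h4 : ∀ᵐ Y ∂(Measure.map PrP μ), cTyp K Y := (ae_map_iff hP.aemeasurable hm).2 h3
  rw [← h] at h4
  have hPF : Measurable (fun X => PrP (F X)) := hP.comp hF
  have h5 := (ae_map_iff hPF.aemeasurable hm).1 h4
  filter_upwards [h5] with X hX
  exact (hT.2.2.2.2 K (F X)).1 hX

/-- Module FLIPTYP. -/
theorem flipTyp (hTA : TypAeStmt) (hT : TypMeasStmt) (hCont : ContStmt) : FlipTypStmt := by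
  intro Δ K μ h1 h2 h3
  have C : Ctx Δ K μ := ⟨h1, h2, h3⟩
  have h4 := hTA Δ K μ h1 h2 h3
  have hP : Measurable PrP := hCont.2.2.2.1.measurable
  have h5 : ∀ᵐ X ∂μ, cTyp K (FlT Δ X) :=
    ae_cTyp_of_map (hCont.2.2.2.2.2.1 Δ).measurable hP hT (map_FlT hCont C) h4
  have h6 : ∀ᵐ X ∂μ, ∀ S : Finset Gam, cTyp K (FlP Δ S X) := by
    rw [ae_all_iff]
    intro S
    exact ae_cTyp_of_map (hCont.2.2.2.2.1 Δ S).measurable hP hT (C.h.flip S) h4
  filter_upwards [h5, h6] with X h7 h8
  exact ⟨h7, h8⟩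

end Pool.Agent.BS.H3
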