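import Pool.Agent.Helper3_BS.Rec

/-! # BS modules LNO and NOLIM -/

set_option autoImplicit false

namespace Pool.Agent.BS.H3

open Function Filter MeasureTheory Topology

variable {Δ K : ℕ} {μ : Measure Cod}

/-- Module LNO. -/
theorem lNo (hR : TypRepStmt) (hT : TypMeasStmt) (hA : AtStmt) : LNoStmt := by
  intro Δ K μ h1 h2 h3
  have C : Ctx Δ K μ := ⟨h1, h2, h3⟩
  have m1 : MeasurableSet {X | cLO X 0} := hT.2.1 0
  filter_upwards [C.h.good, C.h.cross, C.recur hA m1] with X h4 h5 h6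
  intro D V T θ E h
  have hE := h4 D V T θ E h
  by_contra hcon
  rw [not_or] at hcon
  obtain ⟨hP, hF⟩ := hcon
  unfold TMap.NoL at hP hF
  push Not at hP hF
  obtain ⟨e', he', hoff', i', hi'⟩ := hP
  obtain ⟨e, he, hoff, i, hi⟩ := hF
  -- the left vertex at time `i` is visited infinitely often
  have hfin : {k : ℤ | T.lf (T.st E.c E.r k) = T.lf (T.st E.c E.r i)}.Finite := by
    refine ((T.star (T.lf (T.st E.c E.r i))).finite_toSet.preimage (hE.inj.injOn)).subset ?_
    intro k hk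
    have hk' : T.lf (T.st E.c E.r k) = T.lf (T.st E.c E.r i) := hk
    simp only [Set.mem_preimage, Finset.mem_coe, T.mem_star]
    exact hk'
  obtain ⟨M, hM⟩ := hfin.bddAbove
  have h9 : cLO (Shz X i') 0 := by
    rw [cLO_Shz hR hA h hE, add_zero, cLO_iff hR h hE]
    exact ⟨e', he', hoff', hi'⟩
  obtain ⟨n, hn, h10⟩ := (h6 i' h9).1 ((max (i + 1) (M + 1)) - i').toNat
  have h11 : cLO (Shz X (i' + n)) 0 := h10
  rw [cLO_Shz hR hA h hE, add_zero, cLO_iff hR h hE] at h11
  obtain ⟨e2, he2, hoff2, h12⟩ := h11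
  have h13 : i + 1 ≤ i' + n ∧ M + 1 ≤ i' + n := by omega
  have h14 := h5 D V T θ E h i (i' + n) (by omega) e he e2 he2 hoff hoff2 hi h12
  have h15 : (i' + (n : ℤ)) ≤ M := hM h14.symm
  omega

theorem noL_iff {D V : Type} {T : TMap D V} {θ : D → ℤ} {E : Env D V} {X : Cod} (hR : TypRepStmt)
    (h : IsRep Δ K T θ E X) (hE : T.Good E) :
    T.NoL E.P E.c E.r ↔ ∀ i : ℤ, ¬ cLO X i := by
  simp only [cLO_iff hR h hE]
  constructor
  · rintro h1 i ⟨e, he, hoff, h2⟩
    exact h1 e he hoff i h2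
  · intro h1 e he hoff i h2
    exact h1 i ⟨e, he, hoff, h2⟩

theorem measurableSet_noLO (hT : TypMeasStmt) : MeasurableSet {X : Cod | ∀ i : ℤ, ¬ cLO X i} := by
  have e : {X : Cod | ∀ i : ℤ, ¬ cLO X i} = ⋂ i : ℤ, {X : Cod | cLO X i}ᶜ := by
    ext X
    simp
  rw [e]
  exact MeasurableSet.iInter fun i => (hT.2.1 i).compl

/-- Module NOLIM. -/
theorem noLim (hCore : CoreStmt) (hRN : RNoStmt) (hLN : LNoStmt) (hR : TypRepStmt)
    (hT : TypMeasStmt) (hA : AtStmt) (hC : CodeStmt) (hM : MirPlanarStmt) : NoLimStmt := by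
  intro Δ K μ h1 h2 h3
  have C : Ctx Δ K μ := ⟨h1, h2, h3⟩
  have := C.prob
  obtain ⟨r1, r2, r3⟩ := hRN Δ K μ h1 h2 h3
  have l1 := hLN Δ K μ h1 h2 h3
  have mW0 : MeasurableSet {X : Cod | ∃ m, X (.beta m) A = false} := by
    have e : {X : Cod | ∃ m, X (.beta m) A = false} = ⋃ m, {X : Cod | X (.beta m) A = false} := by
      ext X
      simp
    rw [e]
    exact MeasurableSet.iUnion fun m => (measurable_bit (.beta m) A) (measurableSet_singleton false)
  have mN := measurableSet_noLO hT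
  obtain ⟨c, hc⟩ := exists_abs_th0_le K
  have hint : Integrable (th0 K) μ := by
    refine Integrable.of_bound (measurable_th0 K).aestronglyMeasurable c ?_
    exact Eventually.of_forall fun X => by rw [Real.norm_eq_abs]; exact hc X
  -- invariance
  have i0 : ∀ᵐ X ∂μ, (∃ m, X (.beta m) A = false) ↔ ∃ m, (Sh X) (.beta m) A = false := by
    filter_upwards [r1] with X hX
    constructor
    · intro h
      by_contra h'
      push Not at h'
      obtain ⟨m, hm⟩ := h
      have := hX.2 (fun m => by simpa using h' m) m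
      rw [hm] at this
      cases this
    · intro h
      by_contra h'
      push Not at h'
      obtain ⟨m, hm⟩ := h
      have := hX.1 (fun m => by simpa using h' m) m
      rw [hm] at this
      cases this
  have iN : ∀ᵐ X ∂μ, (∀ i : ℤ, ¬ cLO X i) ↔ ∀ i : ℤ, ¬ cLO (Sh X) i := by
    filter_upwards [C.ae_rep] with X hX
    obtain ⟨D, V, T, θ, E, h, hE⟩ := hX
    have e : ∀ j, cLO (Sh X) j ↔ cLO X (1 + j) := fun j => cLO_Shz hR hA h hE 1 j
    constructor
    · intro h4 i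
      rw [e]
      exact h4 _
    · intro h4 i h5
      refine h4 (i - 1) ?_
      rw [e]
      have e2 : (1 : ℤ) + (i - 1) = i := by ring
      rw [e2]
      exact h5
  set W0 : Set Cod := {X : Cod | ∃ m, X (.beta m) A = false} with hW0
  set N : Set Cod := {X : Cod | ∀ i : ℤ, ¬ cLO X i} with hN
  have hsum : 0 < ∫ X in W0 ∩ N, th0 K X ∂μ + ∫ X in W0 \ N, th0 K X ∂μ := by
    rw [integral_inter_add_sdiff mN hint.integrableOn]
    exact r3
  have inv1 : ∀ᵐ X ∂μ, X ∈ W0 ∩ N ↔ Sh X ∈ W0 ∩ N := by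
    filter_upwards [i0, iN] with X ha hb
    exact and_congr ha hb
  have inv2 : ∀ᵐ X ∂μ, X ∈ W0 \ N ↔ Sh X ∈ W0 \ N := by
    filter_upwards [i0, iN] with X ha hb
    exact and_congr ha (not_congr hb)
  rcases lt_or_ge 0 (∫ X in W0 ∩ N, th0 K X ∂μ) with hpos | hneg
  · refine hCore Δ K μ h1 h2 h3 (W0 ∩ N) (mW0.inter mN) inv1 hpos ?_
    filter_upwards [r2, C.h.good] with X ha hb
    rintro ⟨hX0, hXN⟩ D V T θ E h
    obtain ⟨hc1, hc2⟩ := ha hX0 D V T θ E h
    exact ⟨hc1, hc2, (noL_iff hR h (hb D V T θ E h)).2 hXN⟩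
  · have hpos2 : 0 < ∫ X in W0 \ N, th0 K X ∂μ := by linarith
    have mW2 : MeasurableSet (W0 \ N) := mW0.diff mN
    refine hCore Δ K (Measure.map Mi μ) C.mir.prob C.mir.h C.mir.h' (Mi ⁻¹' (W0 \ N))
      (measurable_Mi mW2) ?_ ?_ ?_
    · refine Ctx.ae_of_Mi ?_
      filter_upwards [C.ae_inv hA (p := fun X => X ∈ W0 \ N) inv2] with X hX
      have h5 := hX (-1)
      rw [Shz_neg_one] at h5
      have e1 : Mi X ∈ Mi ⁻¹' (W0 \ N) ↔ X ∈ W0 \ N := by
        rw [Set.mem_preimage, Mi_Mi]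
      have e2 : Sh (Mi X) ∈ Mi ⁻¹' (W0 \ N) ↔ Sb X ∈ W0 \ N := Iff.rfl
      rw [e1, e2]
      exact h5.symm
    · rw [setIntegral_map (measurable_Mi mW2) (measurable_th0 K).aestronglyMeasurable
        measurable_Mi.aemeasurable]
      have e1 : Mi ⁻¹' (Mi ⁻¹' (W0 \ N)) = W0 \ N := by
        ext X
        rw [Set.mem_preimage, Set.mem_preimage, Mi_Mi]
      rw [e1]
      simp only [th0_Mi]
      exact hpos2
    · refine Ctx.ae_of_Mi ?_
      filter_upwards [r2, l1, C.h.good] with X ha hl hb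
      intro hX D V T θ E h
      rw [Set.mem_preimage, Mi_Mi] at hX
      obtain ⟨hX0, hXN⟩ := hX
      have h4 : IsRep Δ K T.mirror θ E.mir X := by
        have h5 := isRep_mir hM hC h
        rwa [Mi_Mi] at h5
      obtain ⟨hc1, hc2⟩ := ha hX0 D V T.mirror θ E.mir h4
      rw [mirror_NoR] at hc1 hc2
      refine ⟨hc2, hc1, ?_⟩
      rcases hl D V T.mirror θ E.mir h4 with h6 | h6
      · exact absurd ((noL_iff hR h4 (hb _ _ _ _ _ h4)).1 h6) hXN
      · rw [mirror_NoL] at h6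
        exact h6

end Pool.Agent.BS.H3
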