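import Pool.Agent.Helper3_BS.Base

/-! # BS module RNO: no old right vertices on the part where the bays are bounded -/

set_option autoImplicit false

namespace Pool.Agent.BS.H3

open Function Filter MeasureTheory Topology

variable {Δ K : ℕ} {μ : Measure Cod}

theorem beta_anti {X : Cod} (h : ∀ (m : ℕ) (g : Gam), X (.beta (m + 1)) g = true → X (.beta m) g = true)
    (g : Gam) {m m' : ℕ} (hm : m ≤ m') (h2 : X (.beta m') g = true) : X (.beta m) g = true := by
  induction m', hm using Nat.le_induction with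
  | base => exact h2
  | succ n _ ih => exact ih (h n g h2)

theorem measurableSet_beta (m : ℕ) (g : Gam) (b : Bool) : MeasurableSet {X : Cod | X (.beta m) g = b} :=
  (measurable_bit (.beta m) g) (measurableSet_singleton b)

theorem rno_part1 (C : Ctx Δ K μ) :
    ∀ᵐ X ∂μ, (∀ m, X (.beta m) A = true) ↔ ∀ m, (Sh X) (.beta m) A = true := by
  have := C.prob
  obtain ⟨c, hc⟩ := C.h.change
  have h0 : ∀ N : ℕ, μ {X | ∀ m, N ≤ m → X (.beta m) A ≠ (Sh X) (.beta m) A} = 0 := by
    intro N
    have h1 : μ.real {X | ∀ m, N ≤ m → X (.beta m) A ≠ (Sh X) (.beta m) A} ≤ 0 := by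
      refine ge_of_tendsto (tendsto_const_div_atTop_nhds_zero_nat c) ?_
      filter_upwards [eventually_ge_atTop N, eventually_ge_atTop 1] with m h1 h2
      have h3 : {X : Cod | ∀ m, N ≤ m → X (.beta m) A ≠ (Sh X) (.beta m) A} ⊆
          {X | X (.beta m) A ≠ (Sh X) (.beta m) A} := fun X hX => hX m h1
      exact (measureReal_mono h3).trans (hc m h2)
    have h2 : μ.real {X | ∀ m, N ≤ m → X (.beta m) A ≠ (Sh X) (.beta m) A} = 0 :=
      le_antisymm h1 measureReal_nonneg
    exact (measureReal_eq_zero_iff).1 h2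
  have h1 : ∀ᵐ X ∂μ, ∀ N : ℕ, ¬ ∀ m, N ≤ m → X (.beta m) A ≠ (Sh X) (.beta m) A := by
    rw [ae_all_iff]
    intro N
    rw [ae_iff]
    simpa only [not_not] using h0 N
  filter_upwards [h1, C.h.mono, C.mpSh.quasiMeasurePreserving.ae C.h.mono] with X h2 h3 h4
  constructor
  · intro h5 m0
    by_contra h6
    refine h2 m0 fun m hm h7 => h6 ?_
    exact beta_anti h4 A hm (h7 ▸ h5 m)
  · intro h5 m0
    by_contra h6
    refine h2 m0 fun m hm h7 => h6 ?_
    exact beta_anti h3 A hm (h7.symm ▸ h5 m)

theorem enc_beta {D V : Type} (T : TMap D V) (θ : D → ℤ) (E : Env D V) (m : ℕ) :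
    T.enc θ E (.beta m) A = true ↔ T.rt E.r ∈ E.B m := by
  have e : T.act A E.r = T.al E.r := by rw [T.act_A]
  simp only [TMap.enc, e, decide_eq_true_eq]
  exact Iff.rfl

theorem noR_P (hA : AtStmt) (C : Ctx Δ K μ) : ∀ᵐ X ∂μ, (∃ m, X (.beta m) A = false) →
    ∀ (D V : Type) (T : TMap D V) (θ : D → ℤ) (E : Env D V), IsRep Δ K T θ E X →
      T.NoR E.P E.c E.r := by
  filter_upwards [C.ae_inv hA (p := fun X => ∀ m, X (.beta m) A = true) (rno_part1 C),
    C.ae_Shz C.h.old, C.h.good] with X h1 h2 h3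
  intro h4 D V T θ E h e he hoff i hi
  have hE := h3 D V T θ E h
  have hr := isRep_at hA h hE i
  have h5 : ∀ m, T.rt (T.atE E i).r ∈ (T.atE E i).B m := by
    intro m
    refine h2 i D V T θ (T.atE E i) hr m e ((mem_at_P hoff).2 he) hi ?_
    intro j _
    exact (off_at hE).2 hoff _
  have h6 : ∀ m, (Shz X i) (.beta m) A = true := by
    intro m
    rw [hr.eq, enc_beta]
    exact h5 m
  obtain ⟨m, hm⟩ := h4
  have h7 := (h1 i).1 h6 m
  rw [hm] at h7
  cases h7

theorem Mi_beta (X : Cod) (m : ℕ) : (Mi X) (.beta m) A = X (.beta m) A := by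
  simp only [Mi, Kd.swap, sig_A]

theorem rno_part2 (hA : AtStmt) (hC : CodeStmt) (hM : MirPlanarStmt) (C : Ctx Δ K μ) :
    ∀ᵐ X ∂μ, (∃ m, X (.beta m) A = false) →
    ∀ (D V : Type) (T : TMap D V) (θ : D → ℤ) (E : Env D V), IsRep Δ K T θ E X →
      T.NoR E.P E.c E.r ∧ T.NoR E.F E.c E.r := by
  filter_upwards [noR_P hA C, Ctx.ae_Mi (noR_P hA C.mir)] with X h1 h2
  intro h3 D V T θ E h
  refine ⟨h1 h3 D V T θ E h, ?_⟩
  have h4 := h2 (by simpa only [Mi_beta] using h3) D V T.mirror θ E.mir (isRep_mir hM hC h)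
  exact (mirror_NoR _ _ _).1 h4

theorem measurableSet_W0 : MeasurableSet {X : Cod | ∃ m, X (.beta m) A = false} := by
  have e : {X : Cod | ∃ m, X (.beta m) A = false} = ⋃ m, {X : Cod | X (.beta m) A = false} := by
    ext X
    simp
  rw [e]
  exact MeasurableSet.iUnion fun m => measurableSet_beta m A false

theorem rno_part3 (C : Ctx Δ K μ) :
    0 < ∫ X in {X | ∃ m, X (.beta m) A = false}, th0 K X ∂μ := by
  classical
  have := C.prob
  have hΔ := C.delta_pos
  obtain ⟨c, hc⟩ := exists_abs_th0_le K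
  have hlim : Tendsto (fun m : ℕ => ∫ X, (if X (.beta m) A then 0 else th0 K X) ∂μ) atTop
      (𝓝 (∫ X in {X | ∃ m, X (.beta m) A = false}, th0 K X ∂μ)) := by
    rw [← integral_indicator measurableSet_W0]
    refine tendsto_integral_of_dominated_convergence (fun _ => c) ?_ (integrable_const c) ?_ ?_
    · intro m
      refine (Measurable.ite ?_ measurable_const (measurable_th0 K)).aestronglyMeasurable
      exact measurableSet_beta m A true
    · intro m
      refine Eventually.of_forall fun X => ?_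
      rw [Real.norm_eq_abs]
      split_ifs
      · rw [abs_zero]
        exact (abs_nonneg _).trans (hc X)
      · exact hc X
    · filter_upwards [C.h.mono] with X hX
      by_cases h : ∃ m, X (.beta m) A = false
      · obtain ⟨m0, hm0⟩ := h
        refine tendsto_const_nhds.congr' ?_
        filter_upwards [eventually_ge_atTop m0] with m hm
        have h1 : X (.beta m) A = false := by
          by_contra h2
          have h3 := beta_anti hX A hm (by simpa using h2)
          rw [hm0] at h3
          cases h3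
        have h4 : X ∈ {X : Cod | ∃ m, X (.beta m) A = false} := ⟨m, h1⟩
        rw [Set.indicator_of_mem h4, h1]
        rfl
      · have h4 : X ∉ {X : Cod | ∃ m, X (.beta m) A = false} := h
        rw [Set.indicator_of_notMem h4]
        refine tendsto_const_nhds.congr' (Eventually.of_forall fun m => ?_)
        have h1 : X (.beta m) A = true := by
          by_contra h2
          exact h ⟨m, by simpa using h2⟩
        simp only [h1, if_true]
  have h1 : (1 : ℝ) / Δ ≤ ∫ X in {X | ∃ m, X (.beta m) A = false}, th0 K X ∂μ := by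
    refine ge_of_tendsto hlim ?_
    filter_upwards [eventually_ge_atTop (K * Δ)] with m hm
    exact C.h.drift m hm
  have h2 : (0 : ℝ) < 1 / Δ := by positivity
  exact lt_of_lt_of_le h2 h1

/-- Module RNO. -/
theorem rNo (hA : AtStmt) (hC : CodeStmt) (hM : MirPlanarStmt) : RNoStmt := by
  intro Δ K μ h1 h2 h3
  have C : Ctx Δ K μ := ⟨h1, h2, h3⟩
  exact ⟨rno_part1 C, rno_part2 hA hC hM C, rno_part3 C⟩

end Pool.Agent.BS.H3
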