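import Pool.Agent.Helper3_BS.Base

/-! # BS squad (helper3): recurrence and averages along the interface -/

set_option autoImplicit false

namespace Pool.Agent.BS.H3

open Function Filter MeasureTheory Topology

variable {Δ K : ℕ} {μ : Measure Cod}

/-! ### composition of shifts -/

theorem Shz_Shz {D V : Type} {T : TMap D V} {θ : D → ℤ} {E : Env D V} {X : Cod} (hA : AtStmt)
    (h : IsRep Δ K T θ E X) (hE : T.Good E) (i j : ℤ) : Shz (Shz X i) j = Shz X (i + j) := by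
  have h1 := isRep_at hA h hE i
  have h2 := isRep_at hA h1 (good_at hA hE θ i) j
  rw [h2.eq, at_at hA hE θ, ← (isRep_at hA h hE (i + j)).eq]

/-! ### Poincare recurrence -/

theorem Ctx.recur (C : Ctx Δ K μ) (hA : AtStmt) {S : Set Cod} (hS : MeasurableSet S) :
    ∀ᵐ X ∂μ, ∀ i : ℤ, Shz X i ∈ S →
      (∀ N : ℕ, ∃ n : ℕ, N ≤ n ∧ Shz X (i + n) ∈ S) ∧
      (∀ N : ℕ, ∃ n : ℕ, N ≤ n ∧ Shz X (i - n) ∈ S) := by
  have := C.prob
  have h1 : ∀ᵐ X ∂μ, X ∈ S → ∃ᶠ n in atTop, Sh^[n] X ∈ S :=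
    C.mpSh.conservative.ae_mem_imp_frequently_image_mem hS.nullMeasurableSet
  have h2 : ∀ᵐ X ∂μ, X ∈ S → ∃ᶠ n in atTop, Sb^[n] X ∈ S :=
    C.mpSb.conservative.ae_mem_imp_frequently_image_mem hS.nullMeasurableSet
  filter_upwards [C.ae_Shz h1, C.ae_Shz h2, C.ae_rep] with X h3 h4 h5 i hi
  obtain ⟨D, V, T, θ, E, h, hE⟩ := h5
  constructor
  · intro N
    obtain ⟨n, hn, h6⟩ := (frequently_atTop.1 (h3 i hi)) N
    refine ⟨n, hn, ?_⟩
    rw [← Shz_natCast, Shz_Shz hA h hE] at h6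
    exact h6
  · intro N
    obtain ⟨n, hn, h6⟩ := (frequently_atTop.1 (h4 i hi)) N
    refine ⟨n, hn, ?_⟩
    rw [← Shz_neg_natCast, Shz_Shz hA h hE, ← sub_eq_add_neg] at h6
    exact h6

/-! ### old vertices, seen from another time -/

section
variable {D V : Type} {T : TMap D V} {θ : D → ℤ} {E : Env D V} {X : Cod}

theorem cLO_iff (hR : TypRepStmt) (h : IsRep Δ K T θ E X) (hE : T.Good E) (i : ℤ) :
    cLO X i ↔ ∃ e ∈ E.P, (∀ j : ℤ, T.st E.c E.r j ≠ e) ∧ T.lf e = T.lf (T.st E.c E.r i) :=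
  (hR Δ K D V T θ E X h hE.state).2.1 i

theorem cRO_iff (hR : TypRepStmt) (h : IsRep Δ K T θ E X) (hE : T.Good E) (i : ℤ) :
    cRO X i ↔ ∃ e ∈ E.P, (∀ j : ℤ, T.st E.c E.r j ≠ e) ∧ T.rt e = T.rt (T.st E.c E.r i) :=
  (hR Δ K D V T θ E X h hE.state).2.2.1 i

theorem cTyp_iff (hR : TypRepStmt) (h : IsRep Δ K T θ E X) (hE : T.State E.c E.r) :
    cTyp K X ↔ T.TypE θ E :=
  (hR Δ K D V T θ E X h hE).2.2.2

theorem cLO_Shz (hR : TypRepStmt) (hA : AtStmt) (h : IsRep Δ K T θ E X) (hE : T.Good E) (i j : ℤ) :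
    cLO (Shz X i) j ↔ cLO X (i + j) := by
  rw [cLO_iff hR h hE, cLO_iff hR (isRep_at hA h hE i) (good_at hA hE θ i)]
  constructor
  · rintro ⟨e, h1, h2, h3⟩
    have h2' : ∀ j : ℤ, T.st E.c E.r j ≠ e := (off_at hE).1 h2
    exact ⟨e, (mem_at_P h2').1 h1, h2', by rw [h3]; exact congrArg T.lf (st_at hE i j)⟩
  · rintro ⟨e, h1, h2, h3⟩
    exact ⟨e, (mem_at_P h2).2 h1, (off_at hE).2 h2,
      by rw [h3]; exact (congrArg T.lf (st_at hE i j)).symm⟩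

theorem cRO_Shz (hR : TypRepStmt) (hA : AtStmt) (h : IsRep Δ K T θ E X) (hE : T.Good E) (i j : ℤ) :
    cRO (Shz X i) j ↔ cRO X (i + j) := by
  rw [cRO_iff hR h hE, cRO_iff hR (isRep_at hA h hE i) (good_at hA hE θ i)]
  constructor
  · rintro ⟨e, h1, h2, h3⟩
    have h2' : ∀ j : ℤ, T.st E.c E.r j ≠ e := (off_at hE).1 h2
    exact ⟨e, (mem_at_P h2').1 h1, h2', by rw [h3]; exact congrArg T.rt (st_at hE i j)⟩
  · rintro ⟨e, h1, h2, h3⟩
    exact ⟨e, (mem_at_P h2).2 h1, (off_at hE).2 h2,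
      by rw [h3]; exact (congrArg T.rt (st_at hE i j)).symm⟩

/-! ### averages -/

theorem th0_Shz (hA : AtStmt) (hC : CodeStmt) (h : IsRep Δ K T θ E X) (hE : T.Good E) (i : ℤ) :
    th0 K (Shz X i) = θ (T.st E.c E.r i) := by
  have h1 := isRep_at hA h hE i
  rw [h1.eq]
  exact (hC D V T θ (T.atE E i)).2.2.2.2.2 K h.flow.bdd

theorem FAvg_iff (hA : AtStmt) (hC : CodeStmt) (h : IsRep Δ K T θ E X) (hE : T.Good E) (a : ℝ) :
    T.FAvg θ E.c E.r a ↔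
      Tendsto (fun n : ℕ => (∑ k ∈ Finset.range n, th0 K (Sh^[k] X)) / n) atTop (𝓝 a) := by
  unfold TMap.FAvg
  have e : ∀ k : ℕ, th0 K (Sh^[k] X) = θ (T.st E.c E.r (k : ℤ)) := by
    intro k
    rw [← th0_Shz hA hC h hE, Shz_natCast]
  simp only [e]

theorem BAvg_iff (hA : AtStmt) (hC : CodeStmt) (h : IsRep Δ K T θ E X) (hE : T.Good E) (a : ℝ) :
    T.BAvg θ E.c E.r a ↔
      Tendsto (fun n : ℕ => (∑ k ∈ Finset.range n, th0 K (Sb^[k] X)) / n) atTop (𝓝 a) := by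
  unfold TMap.BAvg
  have e : ∀ k : ℕ, th0 K (Sb^[k] X) = θ (T.st E.c E.r (-(k : ℤ))) := by
    intro k
    rw [← th0_Shz hA hC h hE, Shz_neg_natCast]
  simp only [e]

end

theorem Ctx.ae_avg (C : Ctx Δ K μ) (hA : AtStmt) (hG : ErgStmt) :
    ∀ᵐ X ∂μ, ∃ a : ℝ,
      Tendsto (fun n : ℕ => (∑ k ∈ Finset.range n, th0 K (Sh^[k] X)) / n) atTop (𝓝 a) ∧
      Tendsto (fun n : ℕ => (∑ k ∈ Finset.range n, th0 K (Sb^[k] X)) / n) atTop (𝓝 a) :=
  (hG Cod _ μ C.prob Sh Sb C.mpSh C.mpSb (C.ae_Sb_Sh hA) (C.ae_Sh_Sb hA) (th0 K)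
    (measurable_th0 K) (exists_abs_th0_le K)).1

/-- Module TYPAE. -/
theorem typAe (hG : ErgStmt) (hR : TypRepStmt) (hT : TypMeasStmt) (hA : AtStmt) (hC : CodeStmt) :
    TypAeStmt := by
  intro Δ K μ h1 h2 h3
  have C : Ctx Δ K μ := ⟨h1, h2, h3⟩
  have m1 : MeasurableSet {X | cLO X 0} := hT.2.1 0
  have m2 : MeasurableSet {X | cRO X 0} := hT.2.2.1 0
  filter_upwards [C.ae_rep, C.recur hA m1, C.recur hA m2, C.ae_avg hA hG] with X h4 h5 h6 h7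
  obtain ⟨D, V, T, θ, E, h, hE⟩ := h4
  rw [cTyp_iff hR h hE.state]
  refine ⟨hE.state, hE.inj, hE.memP, ?_, ?_, ?_⟩
  · obtain ⟨a, ha, hb⟩ := h7
    exact ⟨a, (FAvg_iff hA hC h hE a).2 ha, (BAvg_iff hA hC h hE a).2 hb⟩
  · intro h8 e he hoff i hi
    have h9 : cLO (Shz X i) 0 := by
      rw [cLO_Shz hR hA h hE, add_zero, cLO_iff hR h hE]
      exact ⟨e, he, hoff, hi⟩
    obtain ⟨n, hn, h10⟩ := (h5 i h9).2 i.toNat
    have h11 : cLO (Shz X (i - n)) 0 := h10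
    rw [cLO_Shz hR hA h hE, add_zero, cLO_iff hR h hE] at h11
    obtain ⟨e', he', hoff', h12⟩ := h11
    exact h8 (i - n) (by omega) e' he' hoff' h12
  · intro h8 e he hoff i hi
    have h9 : cRO (Shz X i) 0 := by
      rw [cRO_Shz hR hA h hE, add_zero, cRO_iff hR h hE]
      exact ⟨e, he, hoff, hi⟩
    obtain ⟨n, hn, h10⟩ := (h6 i h9).2 i.toNat
    have h11 : cRO (Shz X (i - n)) 0 := h10
    rw [cRO_Shz hR hA h hE, add_zero, cRO_iff hR h hE] at h11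
    obtain ⟨e', he', hoff', h12⟩ := h11
    exact h8 (i - n) (by omega) e' he' hoff' h12

end Pool.Agent.BS.H3
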